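import Mathlib

set_option autoImplicit false

namespace Pool.Agent.Results.MP_ec2b5b_lc.Gap

open Finset

/-- payment of the type `(v, c)` facing the menu `M`: the largest payment among the utility-maximising options,
declining (utility `c`, payment `0`) included -/
noncomputable def pay (M : Finset (ℝ × ℝ)) (v c : ℝ) : ℝ :=
  sSup ({p | ∃ x, (x, p) ∈ M ∧ c ≤ v * x - p ∧ ∀ o ∈ M, v * o.1 - o.2 ≤ v * x - p} ∪
    {p | p = 0 ∧ ∀ o ∈ M, v * o.1 - o.2 ≤ c})

lemma geo (P : ℝ) (n : ℕ) : ∑ j ∈ range n, (if P ≤ 3 * 2 ^ (j + 2) then P / 2 ^ (j + 2) else 0) ≤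
    max 0 (6 - P / 2 ^ (n + 1)) := by
  induction n with
  | zero => simp
  | succ n ih =>
    have e : P / 2 ^ (n + 1) = 2 * (P / 2 ^ (n + 2)) := by field_simp; ring
    rw [sum_range_succ]
    split_ifs with h
    · rw [← div_le_iff₀ (by positivity)] at h
      rw [max_eq_right (by linarith)] at ih
      exact le_max_of_le_right (by linarith)
    · rw [← div_le_iff₀ (by positivity)] at h
      rw [max_eq_left (by linarith)] at ih
      exact le_max_of_le_left (by linarith)

theorem result (C : ℝ) : ∃ (n : ℕ) (v q c r : Fin n → ℝ), (∀ i, 0 ≤ v i ∧ 0 ≤ q i ∧ 0 ≤ c i ∧ 0 ≤ r i) ∧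
    ∑ i, q i = 1 ∧ ∑ i, r i = 1 ∧ ∃ M : Finset (ℝ × ℝ), (∀ o ∈ M, 0 ≤ o.1 ∧ o.1 ≤ 1) ∧ ∃ B : ℝ,
      (∀ P, 0 ≤ P → P * ∑ j, ∑ i, (if c i ≤ v j - P then q j * r i else 0) ≤ B) ∧
      C * B < ∑ j, ∑ i, q j * r i * pay M (v j) (c i) := by
  obtain ⟨m, hm⟩ := exists_nat_gt (4 * C)
  obtain ⟨w, w1, hw⟩ : ∃ w : ℝ, 1 ≤ w ∧ (m + 1 : ℕ) ^ 2 * 4 ^ (m + 3) ≤ w := ⟨_, le_max_left _ _, le_max_right _ _⟩
  let a : Fin (m + 1) → ℝ := fun j => 2 ^ (j.1 + 2)
  have a4 : ∀ j, 4 ≤ a j := fun j => by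
    have := one_le_pow₀ (M₀ := ℝ) one_le_two (n := j); simp only [a, pow_add]; linarith
  have al : ∀ i j, i < j → 2 * a i ≤ a j := fun i j h => by
    rw [← pow_succ']; exact pow_le_pow_right₀ one_le_two (by omega)
  let Q : ℝ := ∑ j, (a j * w ^ j.1)⁻¹
  let R : ℝ := ∑ j : Fin (m + 1), w ^ j.1
  have hQ : 0 < Q := sum_pos (fun j _ => by positivity) univ_nonempty
  have hR : 0 < R := sum_pos (fun j _ => by positivity) univ_nonempty
  let M := univ.image fun j => (1 - (a j)⁻¹, 2 * a j)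
  have p0 : ∀ v c, 0 ≤ pay M v c := fun v c => Real.sSup_nonneg (by
    rintro _ (⟨x, h, -⟩ | ⟨rfl, -⟩)
    · obtain ⟨j, -, e⟩ := mem_image.1 h
      rw [← (Prod.mk.inj e).2]; positivity
    · rfl)
  have pj : ∀ j, 2 * a j ≤ pay M (a j ^ 2) (a j ^ 2 - 3 * a j) := fun j => by
    have := a4 j
    have e : a j ^ 2 * (1 - (a j)⁻¹) - 2 * a j = a j ^ 2 - 3 * a j := by field_simp; ring
    refine le_csSup (((M.finite_toSet.image Prod.snd).insert 0).subset ?_).bddAbove
      (.inl ⟨_, mem_image_of_mem _ (mem_univ j), e.ge, fun o ho => ?_⟩)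
    · rintro _ (⟨x, h, -⟩ | ⟨rfl, -⟩)
      exacts [.inr ⟨_, h, rfl⟩, .inl rfl]
    · obtain ⟨k, -, rfl⟩ := mem_image.1 ho
      have := a4 k
      have h : 0 ≤ (a j - a k) * (a j - 2 * a k) := by
        rcases lt_trichotomy k j with h | rfl | h
        · have := al _ _ h; exact mul_nonneg (by linarith) (by linarith)
        · simp
        · have := al _ _ h; exact mul_nonneg_of_nonpos_of_nonpos (by linarith) (by linarith)
      rw [e, ← sub_nonneg, show a j ^ 2 - 3 * a j - (a j ^ 2 * (1 - (a k)⁻¹) - 2 * a k) =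
        (a j - a k) * (a j - 2 * a k) / a k by field_simp; ring]
      positivity
  refine ⟨m + 1, fun j => a j ^ 2, fun j => (a j * w ^ j.1)⁻¹ / Q, fun j => a j ^ 2 - 3 * a j, fun j => w ^ j.1 / R,
    fun j => ⟨by positivity, by positivity, by nlinarith [a4 j], by positivity⟩, by rw [← sum_div, div_self hQ.ne'],
    by rw [← sum_div, div_self hR.ne'], M, fun o ho => ?_, 7 / (Q * R), fun P hP => ?_, ?_⟩
  · obtain ⟨k, -, rfl⟩ := mem_image.1 ho
    have := a4 k
    exact ⟨sub_nonneg.2 (inv_le_one_of_one_le₀ (by linarith)), sub_le_self _ (by positivity)⟩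
  · have k : ∀ j i, P * (if a i ^ 2 - 3 * a i ≤ a j ^ 2 - P then (a j * w ^ j.1)⁻¹ / Q * (w ^ i.1 / R) else 0) ≤
        ((if i = j then (if P ≤ 3 * a j then P / a j else 0) else 0) + 1 / (m + 1 : ℕ) ^ 2) / (Q * R) := fun j i => by
      have := a4 j
      have := a4 i
      split_ifs with h1 h2 h3
      · subst h2
        refine le_trans (le_of_eq ?_) (div_le_div_of_nonneg_right (le_add_of_nonneg_right (by positivity))
          (by positivity))
        field_simp
      · subst h2; exact (h3 (by linarith)).elim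
      · have h3 : i < j := (lt_or_gt_of_ne h2).resolve_right fun h => by nlinarith [al _ _ h]
        have h4 : P ≤ 4 ^ (m + 3) := by
          have : a j ^ 2 ≤ 4 ^ (m + 3) := by
            rw [← pow_mul, show (4 : ℝ) = 2 ^ 2 by norm_num, ← pow_mul]
            exact pow_le_pow_right₀ one_le_two (by omega)
          nlinarith
        have h5 : w ^ i.1 * w ≤ w ^ j.1 := by rw [← pow_succ]; exact pow_le_pow_right₀ w1 h3
        rw [zero_add, show P * ((a j * w ^ j.1)⁻¹ / Q * (w ^ i.1 / R)) = P * w ^ i.1 / (a j * w ^ j.1) / (Q * R) by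
          field_simp]
        refine div_le_div_of_nonneg_right ?_ (by positivity)
        rw [div_le_div_iff₀ (by positivity) (by positivity)]
        have h6 : P * (m + 1 : ℕ) ^ 2 ≤ w := le_trans (by rw [mul_comm]; gcongr) hw
        have h7 : 0 < w ^ i.1 := by positivity
        nlinarith [mul_le_mul_of_nonneg_left h6 h7.le, mul_le_mul_of_nonneg_right (a4 j) (pow_nonneg
          (zero_le_one.trans w1) j.1), pow_nonneg (zero_le_one.trans w1) j.1]
      all_goals rw [mul_zero]; positivity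
    simp only [mul_sum]
    refine (sum_le_sum fun j _ => sum_le_sum fun i _ => k j i).trans ?_
    simp only [← sum_div, sum_add_distrib, sum_ite_eq', mem_univ, if_true, sum_const, card_univ, Fintype.card_fin,
      nsmul_eq_mul]
    refine div_le_div_of_nonneg_right ?_ (by positivity)
    have := (Fin.sum_univ_eq_sum_range (fun j => if P ≤ 3 * 2 ^ (j + 2) then P / 2 ^ (j + 2) else 0) (m + 1)).trans_le
      ((geo P _).trans (max_le (by norm_num) (sub_le_self 6 (by positivity))))
    refine (add_le_add this (le_of_eq ?_)).trans_eq (show 6 + 1 = (7 : ℝ) by norm_num)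
    field_simp
  · refine lt_of_lt_of_le ?_ (sum_le_sum fun j _ => (single_le_sum (fun i _ => mul_nonneg (by positivity) (p0 _ _))
      (mem_univ j)).trans' (mul_le_mul_of_nonneg_left (pj j) (by positivity)))
    rw [sum_congr rfl (g := fun _ => 2 / (Q * R)) fun j _ => by have := a4 j; field_simp]
    rw [sum_const, card_univ, Fintype.card_fin, nsmul_eq_mul, ← mul_div_assoc, ← mul_div_assoc]
    refine div_lt_div_of_pos_right ?_ (by positivity)
    push_cast
    nlinarith [(Nat.cast_nonneg m : (0 : ℝ) ≤ m)]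

end Pool.Agent.Results.MP_ec2b5b_lc.Gap
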